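import Pool.Agent.Y112.KD.Real

/-!
# Operators on the realisation of tensor products
-/

set_option autoImplicit false
set_option linter.unusedSectionVars false
set_option linter.unusedSimpArgs false
set_option backward.isDefEq.respectTransparency false
set_option backward.defeqAttrib.useBackward true

open CategoryTheory Limits MonoidalCategory
open Pool.Agent.Y112.SR Pool.Agent.Y112.KD

namespace Pool.Agent.Y112.SC

universe v u w

open Functor.LaxMonoidal Functor.OplaxMonoidal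

section

variable {C : Type u} [Category.{v} C] [Preadditive C] [MonoidalCategory C] [SymmetricCategory C]
  {K : Type w} [Field K] (R : SuperRealisation C K)

/-- The tensor product of two operators. -/
noncomputable def bx {Q X : C} (a : R.H.obj Q ⟶ R.H.obj Q) (b : R.H.obj X ⟶ R.H.obj X) :
    R.H.obj (Q ⊗ X) ⟶ R.H.obj (Q ⊗ X) :=
  δ R.H Q X ≫ (a ⊗ₘ b) ≫ μ R.H Q X

lemma bx_comp {Q X : C} (a a' : R.H.obj Q ⟶ R.H.obj Q) (b b' : R.H.obj X ⟶ R.H.obj X) :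
    bx R a b ≫ bx R a' b' = bx R (a ≫ a') (b ≫ b') := by
  simp only [bx, Category.assoc, Functor.Monoidal.μ_δ_assoc]
  rw [tensorHom_comp_tensorHom_assoc]

lemma bx_one (Q X : C) : bx R (𝟙 (R.H.obj Q)) (𝟙 (R.H.obj X)) = 𝟙 _ := by
  simp [bx]

lemma bx_map {Q X : C} (f : Q ⟶ Q) (g : X ⟶ X) : bx R (R.H.map f) (R.H.map g) =
    R.H.map (f ⊗ₘ g) := by
  rw [bx, ← Functor.Monoidal.map_tensor]

lemma bx_par (Q X : C) : bx R (R.par Q) (R.par X) = R.par (Q ⊗ X) := by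
  rw [bx, ← R.par_tensor, Functor.Monoidal.δ_μ_assoc]

lemma map_whiskerRight_eq {Q X : C} (f : Q ⟶ Q) : R.H.map (f ▷ X) = bx R (R.H.map f) (𝟙 _) := by
  rw [← CategoryTheory.Functor.map_id, bx_map, tensorHom_id]

lemma bx_assoc {Q X Y : C} (a : R.H.obj Q ⟶ R.H.obj Q) (b : R.H.obj X ⟶ R.H.obj X)
    (c : R.H.obj Y ⟶ R.H.obj Y) : bx R (bx R a b) c ≫ R.H.map (α_ Q X Y).hom =
      R.H.map (α_ Q X Y).hom ≫ bx R a (bx R b c) := by
  have h1 := Functor.LaxMonoidal.associativity (F := R.H) Q X Y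
  have h2 : R.H.map (α_ Q X Y).hom = δ R.H (Q ⊗ X) Y ≫ (δ R.H Q X ▷ R.H.obj Y) ≫ (α_ _ _ _).hom ≫
      (R.H.obj Q ◁ μ R.H X Y) ≫ μ R.H Q (X ⊗ Y) := by
    rw [← h1, ← comp_whiskerRight_assoc, Functor.Monoidal.δ_μ, id_whiskerRight, Category.id_comp,
      Functor.Monoidal.δ_μ_assoc]
  have e1 : bx R (bx R a b) c = δ R.H (Q ⊗ X) Y ≫ (δ R.H Q X ▷ R.H.obj Y) ≫ ((a ⊗ₘ b) ⊗ₘ c) ≫
      (μ R.H Q X ▷ R.H.obj Y) ≫ μ R.H (Q ⊗ X) Y := by
    simp only [bx, ← tensorHom_id, tensorHom_comp_tensorHom_assoc, Category.id_comp,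
      Category.comp_id]
  have e2 : bx R a (bx R b c) = δ R.H Q (X ⊗ Y) ≫ (R.H.obj Q ◁ δ R.H X Y) ≫ (a ⊗ₘ (b ⊗ₘ c)) ≫
      (R.H.obj Q ◁ μ R.H X Y) ≫ μ R.H Q (X ⊗ Y) := by
    simp only [bx, ← id_tensorHom, tensorHom_comp_tensorHom_assoc, Category.id_comp,
      Category.comp_id]
  rw [h2, e1, e2]
  simp only [Category.assoc, Functor.Monoidal.μ_δ_assoc]
  rw [← comp_whiskerRight_assoc, Functor.Monoidal.μ_δ, id_whiskerRight, Category.id_comp,
    ← MonoidalCategory.whiskerLeft_comp_assoc, Functor.Monoidal.μ_δ,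
    MonoidalCategory.whiskerLeft_id, Category.id_comp, associator_naturality_assoc]

lemma bx_assoc_inv {Q X Y : C} (a : R.H.obj Q ⟶ R.H.obj Q) (b : R.H.obj X ⟶ R.H.obj X)
    (c : R.H.obj Y ⟶ R.H.obj Y) : bx R a (bx R b c) ≫ R.H.map (α_ Q X Y).inv =
      R.H.map (α_ Q X Y).inv ≫ bx R (bx R a b) c := by
  have h1 := congrArg (fun z => R.H.map (α_ Q X Y).inv ≫ z ≫ R.H.map (α_ Q X Y).inv)
    (bx_assoc R a b c)
  simp only [Category.assoc, ← Functor.map_comp, Iso.hom_inv_id, CategoryTheory.Functor.map_id,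
    Category.comp_id] at h1
  rw [h1, ← Functor.map_comp_assoc, Iso.inv_hom_id, CategoryTheory.Functor.map_id,
    Category.id_comp]

/-- The symmetry is natural with respect to even operators. -/
lemma bx_braid (h2 : (2 : K) ≠ 0) {X : C} (b c : R.H.obj X ⟶ R.H.obj X)
    (hb : b ≫ R.par X = R.par X ≫ b) (hc : c ≫ R.par X = R.par X ≫ c) :
    bx R b c ≫ R.H.map (β_ X X).hom = R.H.map (β_ X X).hom ≫ bx R c b := by
  have h3 : (b ⊗ₘ c) ≫ (𝟙 _ + R.par X ▷ R.H.obj X + R.H.obj X ◁ R.par X - (R.par X ⊗ₘ R.par X)) =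
      (𝟙 _ + R.par X ▷ R.H.obj X + R.H.obj X ◁ R.par X - (R.par X ⊗ₘ R.par X)) ≫ (b ⊗ₘ c) := by
    simp only [Preadditive.sub_comp, Preadditive.add_comp, Preadditive.comp_sub,
      Preadditive.comp_add, Category.id_comp, Category.comp_id, ← tensorHom_id, ← id_tensorHom,
      tensorHom_comp_tensorHom, hb, hc]
  have h4 : (2 : K) • ((b ⊗ₘ c) ≫ μ R.H X X ≫ R.H.map (β_ X X).hom) =
      (2 : K) • (μ R.H X X ≫ R.H.map (β_ X X).hom ≫ δ R.H X X ≫ (c ⊗ₘ b) ≫ μ R.H X X) := by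
    rw [← Linear.comp_smul, R.symm, ← Category.assoc (b ⊗ₘ c), h3, Category.assoc,
      BraidedCategory.braiding_naturality_assoc]
    have h5 : (2 : K) • (μ R.H X X ≫ R.H.map (β_ X X).hom ≫ δ R.H X X ≫ (c ⊗ₘ b) ≫ μ R.H X X) =
        ((2 : K) • (μ R.H X X ≫ R.H.map (β_ X X).hom)) ≫ δ R.H X X ≫ (c ⊗ₘ b) ≫ μ R.H X X := by
      rw [Linear.smul_comp, Category.assoc]
    rw [h5, R.symm]
    simp only [Category.assoc, Functor.Monoidal.μ_δ_assoc]
  have h5 := congrArg (fun z => (2 : K)⁻¹ • z) h4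
  simp only [smul_smul, inv_mul_cancel₀ h2, one_smul] at h5
  rw [bx, Category.assoc, Category.assoc, h5, bx, Functor.Monoidal.δ_μ_assoc]

/-- The exchange of the last two factors is natural with respect to even operators. -/
lemma bx_sw (h2 : (2 : K) ≠ 0) {Q X : C} (a : R.H.obj Q ⟶ R.H.obj Q) (b c : R.H.obj X ⟶ R.H.obj X)
    (hb : b ≫ R.par X = R.par X ≫ b) (hc : c ≫ R.par X = R.par X ≫ c) :
    bx R (bx R a b) c ≫ R.H.map (sw Q X) = R.H.map (sw Q X) ≫ bx R (bx R a c) b := by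
  have e1 : R.H.map (Q ◁ (β_ X X).hom) = bx R (𝟙 _) (R.H.map (β_ X X).hom) := by
    rw [← CategoryTheory.Functor.map_id, bx_map, id_tensorHom]
  have e2 : R.H.map (sw Q X) = R.H.map (α_ Q X X).hom ≫ bx R (𝟙 _) (R.H.map (β_ X X).hom) ≫
      R.H.map (α_ Q X X).inv := by
    rw [sw, Functor.map_comp, Functor.map_comp, e1]
  rw [e2, ← Category.assoc, bx_assoc]
  simp only [Category.assoc]
  rw [← bx_assoc_inv, ← Category.assoc (bx R a (bx R b c)), bx_comp, bx_braid R h2 b c hb hc,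
    ← Category.assoc (bx R (𝟙 _) _), bx_comp, Category.comp_id, Category.id_comp]

lemma bx_add_left {Q X : C} (a a' : R.H.obj Q ⟶ R.H.obj Q) (b : R.H.obj X ⟶ R.H.obj X) :
    bx R (a + a') b = bx R a b + bx R a' b := by
  simp only [bx, MonoidalPreadditive.add_tensor, Preadditive.add_comp, Preadditive.comp_add]

lemma bx_add_right {Q X : C} (a : R.H.obj Q ⟶ R.H.obj Q) (b b' : R.H.obj X ⟶ R.H.obj X) :
    bx R a (b + b') = bx R a b + bx R a b' := by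
  simp only [bx, MonoidalPreadditive.tensor_add, Preadditive.add_comp, Preadditive.comp_add]

lemma bx_smul_left {Q X : C} (k : K) (a : R.H.obj Q ⟶ R.H.obj Q) (b : R.H.obj X ⟶ R.H.obj X) :
    bx R (k • a) b = k • bx R a b := by
  simp only [bx, MonoidalCategory.tensorHom_def, MonoidalLinear.smul_whiskerRight,
    Linear.smul_comp, Linear.comp_smul]

lemma bx_smul_right {Q X : C} (k : K) (a : R.H.obj Q ⟶ R.H.obj Q) (b : R.H.obj X ⟶ R.H.obj X) :
    bx R a (k • b) = k • bx R a b := by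
  simp only [bx, MonoidalCategory.tensorHom_def, MonoidalLinear.whiskerLeft_smul,
    Linear.smul_comp, Linear.comp_smul]

lemma bx_zero_left {Q X : C} (b : R.H.obj X ⟶ R.H.obj X) :
    bx R (0 : R.H.obj Q ⟶ R.H.obj Q) b = 0 := by
  have := bx_smul_left R (0 : K) (0 : R.H.obj Q ⟶ R.H.obj Q) b
  simpa using this

end

section

variable {C : Type u} [Category.{v} C] [Preadditive C] [Linear ℚ C] [MonoidalCategory C]
  [MonoidalPreadditive C] [MonoidalLinear ℚ C] [SymmetricCategory C]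
  [RightRigidCategory C] {K : Type w} [Field K] (R : SuperRealisation C K)

/-- The partial trace of an operator over the last factor. -/
noncomputable def PT {Q X : C} (x : R.H.obj (Q ⊗ X) ⟶ R.H.obj (Q ⊗ X)) :
    R.H.obj Q ⟶ R.H.obj Q := pt R (μ R.H Q X ≫ x ≫ δ R.H Q X)

lemma PT_map {Q X : C} (y : Q ⊗ X ⟶ Q ⊗ X) : PT R (R.H.map y) = R.H.map (ptr y) :=
  (map_ptr R y).symm

lemma PT_add {Q X : C} (x y : R.H.obj (Q ⊗ X) ⟶ R.H.obj (Q ⊗ X)) :
    PT R (x + y) = PT R x + PT R y := by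
  rw [PT, Preadditive.add_comp, Preadditive.comp_add, pt_add]
  rfl

lemma PT_smul {Q X : C} (k : K) (x : R.H.obj (Q ⊗ X) ⟶ R.H.obj (Q ⊗ X)) :
    PT R (k • x) = k • PT R x := by
  rw [PT, Linear.smul_comp, Linear.comp_smul, pt_smul]
  rfl

lemma PT_comp {Q X : C} (a b : R.H.obj Q ⟶ R.H.obj Q)
    (x : R.H.obj (Q ⊗ X) ⟶ R.H.obj (Q ⊗ X)) :
    PT R (bx R a (𝟙 _) ≫ x ≫ bx R b (𝟙 _)) = a ≫ PT R x ≫ b := by
  rw [PT, PT, ← pt_comp]
  congr 1
  simp only [bx, tensorHom_id, Category.assoc, Functor.Monoidal.μ_δ_assoc,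
    Functor.Monoidal.μ_δ, Category.comp_id]

lemma PT_left {Q X : C} (a : R.H.obj Q ⟶ R.H.obj Q)
    (x : R.H.obj (Q ⊗ X) ⟶ R.H.obj (Q ⊗ X)) :
    PT R (bx R a (𝟙 _) ≫ x) = a ≫ PT R x := by
  have := PT_comp R a (𝟙 _) x
  rwa [bx_one, Category.comp_id, Category.comp_id] at this

lemma PT_bx (h2 : (2 : K) ≠ 0) {Q X : C} (a : R.H.obj Q ⟶ R.H.obj Q)
    (b : R.H.obj X ⟶ R.H.obj X) :
    PT R (bx R a b) = (LinearMap.trace K (R.H.obj X) (b ≫ R.par X).hom) • a := by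
  rw [PT, ← pt_tensor R h2]
  congr 1
  simp [bx]

lemma PT_sw (Q X : C) : PT R (R.H.map (sw Q X)) = 𝟙 _ := by
  rw [PT_map, ptr_sw, CategoryTheory.Functor.map_id]

/-- The trace of a partial trace. -/
lemma trace_PT {Q X : C} (a : R.H.obj Q ⟶ R.H.obj Q)
    (x : R.H.obj (Q ⊗ X) ⟶ R.H.obj (Q ⊗ X)) :
    LinearMap.trace K (R.H.obj Q) (a ≫ PT R x ≫ R.par Q).hom =
      LinearMap.trace K (R.H.obj (Q ⊗ X)) (bx R a (𝟙 _) ≫ x ≫ R.par (Q ⊗ X)).hom := by
  have h0 := R.finite Q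
  have h0' := R.finite X
  have h0'' := R.finite (Q ⊗ X)
  have h3 : Module.Finite K ↑(R.H.obj Q ⊗ R.H.obj X) :=
    inferInstanceAs (Module.Finite K (TensorProduct K (R.H.obj Q) (R.H.obj X)))
  rw [← Category.assoc, ← PT_left, PT, trace_pt]
  have e1 : (μ R.H Q X ≫ (bx R a (𝟙 _) ≫ x) ≫ δ R.H Q X) ≫ (R.par Q ⊗ₘ R.par X) =
      μ R.H Q X ≫ ((bx R a (𝟙 _) ≫ x ≫ R.par (Q ⊗ X)) ≫ δ R.H Q X) := by
    simp only [Category.assoc]
    rw [par_delta]
  rw [e1, ModuleCat.hom_comp]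
  have e2 := LinearMap.trace_comp_comm' (R := K) (μ R.H Q X).hom
    ((bx R a (𝟙 _) ≫ x ≫ R.par (Q ⊗ X)) ≫ δ R.H Q X).hom
  refine e2.trans ?_
  rw [← ModuleCat.hom_comp, Category.assoc, Functor.Monoidal.δ_μ, Category.comp_id]

end

end Pool.Agent.Y112.SC
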