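import Pool.Agent.Y112.SC.Place

/-!
# The sign conjecture for Schur functors
-/

set_option autoImplicit false
set_option linter.unusedSectionVars false
set_option linter.unusedSimpArgs false
set_option backward.isDefEq.respectTransparency false
set_option backward.defeqAttrib.useBackward true

open CategoryTheory Limits MonoidalCategory
open Pool.Agent.Y112.SR Pool.Agent.Y112.KD

namespace Pool.Agent.Y112.SC

universe v u w

open Functor.LaxMonoidal Functor.OplaxMonoidal

section

variable {C : Type u} [Category.{v} C] [Preadditive C] [Linear ℚ C] [MonoidalCategory C]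
  [SymmetricCategory C]

/-- `P` is a direct summand of the tensor power `M ^ n` which is cut out by an idempotent of the
image of the group algebra of the symmetric group, that is, of the `ℚ`-algebra generated by the
exchanges of neighbouring factors. -/
def IsSchurSummand (M P : C) (n : ℕ) : Prop :=
  ∃ (i : P ⟶ tp M n) (r : tp M n ⟶ P), i ≫ r = 𝟙 P ∧
    (r ≫ i : End (tp M n)) ∈ Algebra.adjoin ℚ {s : End (tp M n) | IsSwap M n s}

end

section

variable {C : Type u} [Category.{v} C] [Preadditive C] [Linear ℚ C] [MonoidalCategory C]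
  [MonoidalPreadditive C] [MonoidalLinear ℚ C] [SymmetricCategory C]
  [RightRigidCategory C] {K : Type w} [Field K] (R : SuperRealisation C K)

lemma rc_of_adjoin {X : C} {n : ℕ} {e : End (tp X n)}
    (he : e ∈ Algebra.adjoin ℚ {s : End (tp X n) | IsSwap X n s}) : RC R X n (R.H.map e) := by
  have hK := R_charZero R
  induction he using Algebra.adjoin_induction with
  | mem s hs => exact RC.mon _ (Mon.swap hs)
  | algebraMap q =>
    have h1 : (algebraMap ℚ (End (tp X n)) q : tp X n ⟶ tp X n) = q • 𝟙 _ := by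
      rw [Algebra.algebraMap_eq_smul_one]
      rfl
    rw [h1, R_smul, CategoryTheory.Functor.map_id]
    exact RC.smul _ _ (RC.mon _ (Mon.one n))
  | add x y _ _ hx hy =>
    have h1 : R.H.map (x + y : End (tp X n)) = R.H.map x + R.H.map y := R.H.map_add
    rw [h1]
    exact RC.add _ _ hx hy
  | mul x y _ _ hx hy =>
    rw [End.mul_def, Functor.map_comp]
    exact RC.comp two_ne_zero hy hx

lemma EE_adjoin {X : C} {n : ℕ} {e : End (tp X n)}
    (he : e ∈ Algebra.adjoin ℚ {s : End (tp X n) | IsSwap X n s}) (k : ℤ) :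
    R.H.map e ≫ EE R X n k = EE R X n k ≫ R.H.map e := by
  have hK := R_charZero R
  induction he using Algebra.adjoin_induction with
  | mem s hs => exact EE_swap R two_ne_zero hs k
  | algebraMap q =>
    have h1 : (algebraMap ℚ (End (tp X n)) q : tp X n ⟶ tp X n) = q • 𝟙 _ := by
      rw [Algebra.algebraMap_eq_smul_one]
      rfl
    rw [h1, R_smul, CategoryTheory.Functor.map_id, Linear.smul_comp, Linear.comp_smul,
      Category.id_comp, Category.comp_id]
  | add x y _ _ hx hy =>
    have h1 : R.H.map (x + y : End (tp X n)) = R.H.map x + R.H.map y := R.H.map_add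
    rw [h1, Preadditive.add_comp, Preadditive.comp_add, hx, hy]
  | mul x y _ _ hx hy =>
    rw [End.mul_def, Functor.map_comp, Category.assoc, hx, ← Category.assoc, hy, Category.assoc]

lemma cplus_tp {M : C} (h : R.CPlus M) (n : ℕ) : R.CPlus (tp M n) := by
  induction n with
  | zero =>
    rw [cplus_iff]
    exact ⟨𝟙 _, by rw [tp, R.par_unit, CategoryTheory.Functor.map_id]⟩
  | succ n ih => exact cplus_tensor R ih h

lemma cplus_tp_one {M : C} (h : R.CPlus (tp M 1)) : R.CPlus M :=
  cplus_retract R (λ_ M).inv (λ_ M).hom (by simp) h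

/-- The trace of an operator as an additive function. -/
noncomputable def trF {X : C} (y : R.H.obj X ⟶ R.H.obj X) : (R.H.obj X ⟶ R.H.obj X) →+ K where
  toFun a := LinearMap.trace K (R.H.obj X) (a ≫ y).hom
  map_zero' := by rw [zero_comp, ModuleCat.hom_zero, map_zero]
  map_add' a b := by rw [Preadditive.add_comp, ModuleCat.hom_add, map_add]

lemma trace_swap {X : C} (a b : R.H.obj X ⟶ R.H.obj X) :
    LinearMap.trace K (R.H.obj X) (a ≫ b).hom = LinearMap.trace K (R.H.obj X) (b ≫ a).hom := by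
  rw [ModuleCat.hom_comp, ModuleCat.hom_comp]
  exact LinearMap.trace_mul_comm K b.hom a.hom

/-- The liftable combinations have traces of a special form if the conjecture fails. -/
lemma first_place {M : C} (hC : ¬ R.CPlus (tp M 1)) (m : ℕ) (p q : ℕ)
    (hp : LinearMap.trace K (R.H.obj (tp M 1)) (𝟙 (R.H.obj (tp M 1)) :
      R.H.obj (tp M 1) ⟶ R.H.obj (tp M 1)).hom = p + q)
    (hq : LinearMap.trace K (R.H.obj (tp M 1)) (R.par (tp M 1)).hom = p - q)
    (x : R.H.obj (tp M (m + 1)) ⟶ R.H.obj (tp M (m + 1))) (hx : RC R M (m + 1) x)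
    (y : tp M (m + 1) ⟶ tp M (m + 1)) (hy : R.H.map y = x) :
    ((p : K) - q) * LinearMap.trace K (R.H.obj (tp M (m + 1)))
      (up R M (R.par (tp M 1)) m ≫ x ≫ R.par (tp M (m + 1))).hom =
    ((p : K) + q) * LinearMap.trace K (R.H.obj (tp M (m + 1))) (x ≫ R.par (tp M (m + 1))).hom := by
  have hK := R_charZero R
  obtain ⟨α, β, hz⟩ := RC.one_shape hK (RC.PTn R m hx)
  obtain ⟨z, hz'⟩ := PTn_map R m y
  rw [hy] at hz'
  have hβ : β = 0 := by
    by_contra hβ
    apply hC
    rw [cplus_iff]
    refine ⟨β⁻¹ • (z - α • 𝟙 _), ?_⟩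
    rw [R_smul, Functor.map_sub, R_smul, CategoryTheory.Functor.map_id, ← hz', hz,
      add_sub_cancel_left, smul_smul, ← Rat.cast_mul, inv_mul_cancel₀ hβ, Rat.cast_one, one_smul]
  rw [hβ, Rat.cast_zero, zero_smul, add_zero] at hz
  have hup : up R M (𝟙 (R.H.obj (tp M 1))) m = 𝟙 _ := by
    induction m with
    | zero => rfl
    | succ m ih =>
      have ih' : ∀ k, up R M (𝟙 (R.H.obj (tp M 1))) k = 𝟙 _ := by
        intro k
        induction k with
        | zero => rfl
        | succ k ihk =>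
          change bx R (up R M (𝟙 (R.H.obj (tp M 1))) k) (𝟙 _) = _
          rw [ihk, bx_one]
      exact ih' (m + 1)
  have t1 := trace_PTn R m (𝟙 (R.H.obj (tp M 1))) x
  have t2 := trace_PTn R m (R.par (tp M 1)) x
  rw [hup, Category.id_comp, Category.id_comp, hz, Linear.smul_comp, Category.id_comp,
    ModuleCat.hom_smul, map_smul, hq, smul_eq_mul] at t1
  rw [hz, Linear.smul_comp, Category.id_comp, Linear.comp_smul, R.par_sq, ModuleCat.hom_smul,
    map_smul, hp, smul_eq_mul] at t2
  rw [← t1, ← t2]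
  ring

lemma all_places {M : C} (hC : ¬ R.CPlus (tp M 1)) (p q : ℕ)
    (hp : LinearMap.trace K (R.H.obj (tp M 1)) (𝟙 (R.H.obj (tp M 1)) :
      R.H.obj (tp M 1) ⟶ R.H.obj (tp M 1)).hom = p + q)
    (hq : LinearMap.trace K (R.H.obj (tp M 1)) (R.par (tp M 1)).hom = p - q)
    {n : ℕ} {a : R.H.obj (tp M n) ⟶ R.H.obj (tp M n)} (ha : Reach R M n a) :
    ∀ (x : R.H.obj (tp M n) ⟶ R.H.obj (tp M n)), RC R M n x →
    ∀ (y : tp M n ⟶ tp M n), R.H.map y = x →
    ((p : K) - q) * LinearMap.trace K (R.H.obj (tp M n)) (a ≫ x ≫ R.par (tp M n)).hom =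
    ((p : K) + q) * LinearMap.trace K (R.H.obj (tp M n)) (x ≫ R.par (tp M n)).hom := by
  have hK := R_charZero R
  induction ha with
  | first n => exact first_place R hC n p q hp hq
  | conj n a s hs _ ih =>
    intro x hx y hy
    have hs2 : R.H.map s ≫ R.H.map s = 𝟙 _ := by
      rw [← Functor.map_comp, swap_sq hs, CategoryTheory.Functor.map_id]
    have hsm : RC R M n (R.H.map s) := RC.mon _ (Mon.swap hs)
    have h1 := ih (R.H.map s ≫ x ≫ R.H.map s)
      (RC.comp two_ne_zero hsm (RC.comp two_ne_zero hx hsm)) (s ≫ y ≫ s)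
      (by rw [Functor.map_comp, Functor.map_comp, hy])
    have hpar : R.H.map s ≫ R.par (tp M n) = R.par (tp M n) ≫ R.H.map s := R.par_natural s
    have e1 : LinearMap.trace K (R.H.obj (tp M n))
        (a ≫ (R.H.map s ≫ x ≫ R.H.map s) ≫ R.par (tp M n)).hom =
        LinearMap.trace K (R.H.obj (tp M n))
        ((R.H.map s ≫ a ≫ R.H.map s) ≫ x ≫ R.par (tp M n)).hom := by
      have f1 : a ≫ (R.H.map s ≫ x ≫ R.H.map s) ≫ R.par (tp M n) =
          (a ≫ R.H.map s ≫ x ≫ R.par (tp M n)) ≫ R.H.map s := by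
        simp only [Category.assoc]
        rw [hpar]
      rw [f1, trace_swap]
      simp only [Category.assoc]
    have e2 : LinearMap.trace K (R.H.obj (tp M n))
        ((R.H.map s ≫ x ≫ R.H.map s) ≫ R.par (tp M n)).hom =
        LinearMap.trace K (R.H.obj (tp M n)) (x ≫ R.par (tp M n)).hom := by
      have f1 : (R.H.map s ≫ x ≫ R.H.map s) ≫ R.par (tp M n) =
          (R.H.map s ≫ x ≫ R.par (tp M n)) ≫ R.H.map s := by
        simp only [Category.assoc]
        rw [hpar]
      rw [f1, trace_swap, ← Category.assoc, hs2, Category.id_comp]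
    rw [← e1, ← e2, h1]

/-- The sign conjecture descends from Schur functors. -/
theorem cplus_of_schur {M P : C} {n : ℕ} (hn : 1 ≤ n) (hP : IsSchurSummand M P n)
    (h0 : ¬ IsZero (R.H.obj P)) (h : R.CPlus P) : R.CPlus M := by
  have hK := R_charZero R
  have h2 : (2 : K) ≠ 0 := two_ne_zero
  apply cplus_tp_one R
  by_contra hC
  obtain ⟨i, r, hir, he⟩ := hP
  set e : End (tp M n) := (r ≫ i : tp M n ⟶ tp M n) with hedef
  obtain ⟨p, q, hp, hq, hp0, hq0⟩ := exists_pq R hK (tp M 1)
  -- the object is not pure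
  have hp1 : p ≠ 0 := by
    intro h
    apply hC
    rw [cplus_iff]
    refine ⟨-𝟙 _, ?_⟩
    rw [Functor.map_neg, CategoryTheory.Functor.map_id, hp0 h]
  have hq1 : q ≠ 0 := by
    intro h
    apply hC
    rw [cplus_iff]
    exact ⟨𝟙 _, by rw [CategoryTheory.Functor.map_id, hq0 h]⟩
  -- the lift
  obtain ⟨g, hg⟩ := (cplus_iff R P).mp h
  have hee : e * e = e := by
    rw [End.mul_def]
    change (r ≫ i) ≫ (r ≫ i) = r ≫ i
    rw [Category.assoc, reassoc_of% hir]
  have hHe : R.H.map e ≫ R.H.map e = R.H.map e := by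
    rw [← Functor.map_comp, ← End.mul_def, hee]
  have hx : R.H.map (r ≫ g ≫ i) = R.H.map e ≫ R.par (tp M n) := by
    rw [Functor.map_comp, Functor.map_comp, hg, hedef, Functor.map_comp, Category.assoc,
      R.par_natural]
  have hRC : RC R M n (R.H.map e ≫ R.par (tp M n)) :=
    RC.comp h2 (rc_of_adjoin R he) (RC.mon _ (Mon.par n))
  have hxP : (R.H.map e ≫ R.par (tp M n)) ≫ R.par (tp M n) = R.H.map e := by
    rw [Category.assoc, R.par_sq, Category.comp_id]
  -- the trace of the number operator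
  have key : ((p : K) - q) * LinearMap.trace K (R.H.obj (tp M n)) (NN R M n ≫ R.H.map e).hom =
      (n : K) * (((p : K) + q) * LinearMap.trace K (R.H.obj (tp M n)) (R.H.map e).hom) := by
    let φ : (R.H.obj (tp M n) ⟶ R.H.obj (tp M n)) →+ K :=
      (AddMonoidHom.mulLeft ((p : K) - q)).comp (trF R (R.H.map e))
    have h1 := NN_val n φ (((p : K) + q) * LinearMap.trace K (R.H.obj (tp M n)) (R.H.map e).hom)
      (fun a ha => by
        have h3 := all_places R hC p q hp hq ha _ hRC _ hx
        rw [hxP] at h3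
        exact h3)
    exact h1
  -- the ranks
  have hrk : ∀ k : ℕ, ∃ t : ℕ, LinearMap.trace K (R.H.obj (tp M n))
      (EE R M n (k : ℤ) ≫ R.H.map e).hom = t := by
    intro k
    have h3 : (EE R M n (k : ℤ) ≫ R.H.map e) ≫ (EE R M n (k : ℤ) ≫ R.H.map e) =
        EE R M n (k : ℤ) ≫ R.H.map e := by
      have f1 : (EE R M n (k : ℤ) ≫ R.H.map e) ≫ (EE R M n (k : ℤ) ≫ R.H.map e) =
          EE R M n (k : ℤ) ≫ (R.H.map e ≫ EE R M n (k : ℤ)) ≫ R.H.map e := by
        simp only [Category.assoc]
      rw [f1, EE_adjoin R he, Category.assoc, hHe, ← Category.assoc, EE_idem R h2]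
    obtain ⟨t, ht, -⟩ := exists_rk R _ h3 hK
    exact ⟨t, ht⟩
  choose ρ hρ using hrk
  have hsum : ∀ f : ℕ → K, LinearMap.trace K (R.H.obj (tp M n))
      ((∑ k ∈ Finset.range (n + 1), f k • EE R M n (k : ℤ)) ≫ R.H.map e).hom =
      ∑ k ∈ Finset.range (n + 1), f k * ρ k := by
    intro f
    have h3 : LinearMap.trace K (R.H.obj (tp M n))
      ((∑ k ∈ Finset.range (n + 1), f k • EE R M n (k : ℤ)) ≫ R.H.map e).hom =
      trF R (R.H.map e) (∑ k ∈ Finset.range (n + 1), f k • EE R M n (k : ℤ)) := rfl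
    rw [h3, map_sum]
    refine Finset.sum_congr rfl fun k _ => ?_
    change LinearMap.trace K (R.H.obj (tp M n)) ((f k • EE R M n (k : ℤ)) ≫ R.H.map e).hom = _
    rw [Linear.smul_comp, ModuleCat.hom_smul, map_smul, hρ, smul_eq_mul]
  have t1 : LinearMap.trace K (R.H.obj (tp M n)) (R.H.map e).hom =
      ∑ k ∈ Finset.range (n + 1), (ρ k : K) := by
    have h3 := hsum (fun _ => 1)
    simp only [one_smul, one_mul] at h3
    rwa [EE_one R h2, Category.id_comp] at h3
  have t2 : LinearMap.trace K (R.H.obj (tp M n)) (NN R M n ≫ R.H.map e).hom =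
      ∑ k ∈ Finset.range (n + 1), ((n : K) - 2 * k) * ρ k := by
    rw [NN_eq R h2, hsum]
  rw [t1, t2] at key
  -- everything vanishes
  have hint : ∑ k ∈ Finset.range (n + 1), ((((n : ℤ) - k) * q + k * p) * ρ k : ℤ) = 0 := by
    have h3 : ((2 * ∑ k ∈ Finset.range (n + 1), ((((n : ℤ) - k) * q + k * p) * ρ k : ℤ) : ℤ) : K)
        = 0 := by
      have h4 : (n : K) * (((p : K) + q) * ∑ k ∈ Finset.range (n + 1), (ρ k : K)) -
          ((p : K) - q) * ∑ k ∈ Finset.range (n + 1), ((n : K) - 2 * k) * ρ k = 0 := by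
        rw [key, sub_self]
      rw [← h4]
      push_cast
      simp only [Finset.mul_sum, ← Finset.sum_sub_distrib]
      refine Finset.sum_congr rfl fun k _ => ?_
      ring
    have h5 : (2 * ∑ k ∈ Finset.range (n + 1), ((((n : ℤ) - k) * q + k * p) * ρ k : ℤ) : ℤ) = 0 := by
      exact_mod_cast h3
    omega
  have hzero : ∀ k ∈ Finset.range (n + 1), (ρ k : K) = 0 := by
    have hpos : ∀ k ∈ Finset.range (n + 1), (0 : ℤ) ≤ (((n : ℤ) - k) * q + k * p) * ρ k := by
      intro k hk
      have hk' : (k : ℤ) ≤ n := by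
        have := Finset.mem_range.mp hk
        omega
      have h3 : (0 : ℤ) ≤ (n : ℤ) - k := by omega
      positivity
    intro k hk
    have h3 := (Finset.sum_eq_zero_iff_of_nonneg hpos).mp hint k hk
    have hk' : (k : ℤ) ≤ n := by
      have := Finset.mem_range.mp hk
      omega
    have h4 : (0 : ℤ) < ((n : ℤ) - k) * q + k * p := by
      have hq2 : (0 : ℤ) < q := by omega
      have hp2 : (0 : ℤ) < p := by omega
      rcases Nat.eq_zero_or_pos k with hk0 | hk0
      · subst hk0
        have hn' : (0 : ℤ) < n := by omega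
        simp only [Nat.cast_zero, sub_zero, zero_mul, add_zero]
        positivity
      · have h5 : (0 : ℤ) ≤ (n : ℤ) - k := by omega
        have h6 : (0 : ℤ) < k := by omega
        positivity
    have h5 : (ρ k : ℤ) = 0 := by
      rcases mul_eq_zero.mp h3 with h6 | h6
      · omega
      · exact h6
    have h6 : ρ k = 0 := by exact_mod_cast h5
    rw [h6, Nat.cast_zero]
  -- the contradiction
  have t3 : LinearMap.trace K (R.H.obj (tp M n)) (R.H.map e).hom = 0 := by
    rw [t1]
    exact Finset.sum_eq_zero hzero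
  have hf1 := R.finite P
  have hf2 := R.finite (tp M n)
  have t4 : LinearMap.trace K (R.H.obj (tp M n)) (R.H.map e).hom =
      (Module.finrank K (R.H.obj P) : K) := by
    have h3 : R.H.map e = R.H.map r ≫ R.H.map i := by rw [hedef, Functor.map_comp]
    rw [h3, ModuleCat.hom_comp]
    have h4 := LinearMap.trace_comp_comm' (R := K) (R.H.map r).hom (R.H.map i).hom
    refine h4.trans ?_
    rw [← ModuleCat.hom_comp, ← Functor.map_comp, hir, CategoryTheory.Functor.map_id,
      ModuleCat.hom_id, LinearMap.trace_id]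
  rw [t3] at t4
  have h7 := finrank_ne_zero R h0
  exact h7 (by exact_mod_cast t4.symm)

/-- The sign conjecture for Schur functors. -/
theorem schur_iff {M P : C} {n : ℕ} (hn : 1 ≤ n) (hP : IsSchurSummand M P n)
    (h0 : ¬ IsZero (R.H.obj P)) : R.CPlus P ↔ R.CPlus M := by
  refine ⟨cplus_of_schur R hn hP h0, fun h => ?_⟩
  obtain ⟨i, r, hir, -⟩ := hP
  exact cplus_retract R i r hir (cplus_tp R h n)

end

end Pool.Agent.Y112.SC
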