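import Pool.Agent.Y112.SC.Box

/-!
# Monomials in exchanges and involutions
-/

set_option autoImplicit false
set_option linter.unusedSectionVars false
set_option linter.unusedSimpArgs false
set_option backward.isDefEq.respectTransparency false
set_option backward.defeqAttrib.useBackward true

open CategoryTheory Limits MonoidalCategory
open Pool.Agent.Y112.SR Pool.Agent.Y112.KD

namespace Pool.Agent.Y112.SC

universe v u w

open Functor.LaxMonoidal Functor.OplaxMonoidal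

section

variable {C : Type u} [Category.{v} C] [Preadditive C] [MonoidalCategory C] [SymmetricCategory C]
  {K : Type w} [Field K] (R : SuperRealisation C K)

/-- An operator which is the identity or the involution. -/
def Pb {X : C} (b : R.H.obj X ⟶ R.H.obj X) : Prop := b = 𝟙 _ ∨ b = R.par X

lemma Pb.one (X : C) : Pb R (𝟙 (R.H.obj X)) := Or.inl rfl

lemma Pb.par (X : C) : Pb R (R.par X) := Or.inr rfl

variable {R}

lemma Pb.comp {X : C} {b c : R.H.obj X ⟶ R.H.obj X} (hb : Pb R b) (hc : Pb R c) :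
    Pb R (b ≫ c) := by
  rcases hb with rfl | rfl
  · rwa [Category.id_comp]
  · rcases hc with rfl | rfl
    · rw [Category.comp_id]
      exact Pb.par R X
    · rw [R.par_sq]
      exact Pb.one R X

lemma Pb.comm {X : C} {b : R.H.obj X ⟶ R.H.obj X} (hb : Pb R b) :
    b ≫ R.par X = R.par X ≫ b := by
  rcases hb with rfl | rfl
  · rw [Category.comp_id, Category.id_comp]
  · rfl

variable (R)

/-- The operator of the exchange of the last two factors. -/
noncomputable def Sg (X : C) (n : ℕ) : R.H.obj (tp X (n + 2)) ⟶ R.H.obj (tp X (n + 2)) :=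
  R.H.map (sw (tp X n) X)

lemma Sg_Sg (X : C) (n : ℕ) : Sg R X n ≫ Sg R X n = 𝟙 _ := by
  rw [Sg, ← Functor.map_comp, sw_sw, CategoryTheory.Functor.map_id]

lemma Sg_braid (X : C) (n : ℕ) : Sg R X (n + 1) ≫ bx R (Sg R X n) (𝟙 _) ≫ Sg R X (n + 1) =
    bx R (Sg R X n) (𝟙 _) ≫ Sg R X (n + 1) ≫ bx R (Sg R X n) (𝟙 _) := by
  have h1 : bx R (Sg R X n) (𝟙 (R.H.obj X)) = R.H.map (sw (tp X n) X ▷ X) :=
    (map_whiskerRight_eq R _).symm
  rw [h1, Sg, ← Functor.map_comp, ← Functor.map_comp, braid, Functor.map_comp, Functor.map_comp]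

lemma Sg_nat (h2 : (2 : K) ≠ 0) {X : C} {n : ℕ} (a : R.H.obj (tp X n) ⟶ R.H.obj (tp X n))
    {b c : R.H.obj X ⟶ R.H.obj X} (hb : Pb R b) (hc : Pb R c) :
    bx R (bx R a b) c ≫ Sg R X n = Sg R X n ≫ bx R (bx R a c) b :=
  bx_sw R h2 a b c hb.comm hc.comm

/-- The monomials in the exchanges of neighbouring factors and the involutions of the factors. -/
inductive Mon (X : C) : ∀ n : ℕ, (R.H.obj (tp X n) ⟶ R.H.obj (tp X n)) → Prop
  | one (n : ℕ) : Mon X n (𝟙 _)
  | box (n : ℕ) (a : R.H.obj (tp X n) ⟶ R.H.obj (tp X n)) (b : R.H.obj X ⟶ R.H.obj X) :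
      Mon X n a → Pb R b → Mon X (n + 1) (bx R a b)
  | swp (n : ℕ) (a a' : R.H.obj (tp X (n + 1)) ⟶ R.H.obj (tp X (n + 1)))
      (b : R.H.obj X ⟶ R.H.obj X) : Mon X (n + 1) a → Mon X (n + 1) a' → Pb R b →
      Mon X (n + 2) (bx R a b ≫ Sg R X n ≫ bx R a' (𝟙 _))

variable {R}

lemma Mon.sg (X : C) (n : ℕ) : Mon R X (n + 2) (Sg R X n) := by
  have h := Mon.swp n (𝟙 _) (𝟙 _) (𝟙 _) (Mon.one (R := R) (X := X) (n + 1)) (Mon.one (n + 1))
    (Pb.one R X)
  rwa [bx_one, Category.comp_id, Category.id_comp] at h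

lemma Mon.compBox (h2 : (2 : K) ≠ 0) {X : C} {n : ℕ}
    (IH : ∀ x y, Mon R X n x → Mon R X n y → Mon R X n (x ≫ y))
    {x : R.H.obj (tp X (n + 1)) ⟶ R.H.obj (tp X (n + 1))} (hx : Mon R X (n + 1) x)
    {c : R.H.obj (tp X n) ⟶ R.H.obj (tp X n)} (hc : Mon R X n c) {d : R.H.obj X ⟶ R.H.obj X}
    (hd : Pb R d) : Mon R X (n + 1) (x ≫ bx R c d) := by
  cases hx with
  | one => rw [Category.id_comp]; exact Mon.box _ _ _ hc hd
  | box _ a b ha hb => rw [bx_comp]; exact Mon.box _ _ _ (IH _ _ ha hc) (hb.comp hd)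
  | swp m a a' b ha ha' hb =>
    have e1 : Sg R X m ≫ bx R (𝟙 _) d = bx R (bx R (𝟙 _) d) (𝟙 _) ≫ Sg R X m := by
      rw [Sg_nat R h2 _ hd (Pb.one R X), bx_one]
    have e2 : (bx R a b ≫ Sg R X m ≫ bx R a' (𝟙 _)) ≫ bx R c d =
        bx R (a ≫ bx R (𝟙 _) d) b ≫ Sg R X m ≫ bx R (a' ≫ c) (𝟙 _) := by
      have e3 : bx R a' (𝟙 _) ≫ bx R c d = bx R (𝟙 _) d ≫ bx R (a' ≫ c) (𝟙 _) := by
        rw [bx_comp, bx_comp, Category.id_comp, Category.id_comp, Category.comp_id]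
      rw [Category.assoc, Category.assoc, e3, ← Category.assoc (Sg R X m), e1, Category.assoc,
        ← Category.assoc (bx R a b), bx_comp, Category.comp_id]
    rw [e2]
    exact Mon.swp m _ _ _ (IH _ _ ha (Mon.box _ _ _ (Mon.one _) hd)) (IH _ _ ha' hc) hb

lemma Mon.compSg (h2 : (2 : K) ≠ 0) {X : C} {m : ℕ}
    (IH : ∀ x y, Mon R X (m + 1) x → Mon R X (m + 1) y → Mon R X (m + 1) (x ≫ y))
    {x : R.H.obj (tp X (m + 2)) ⟶ R.H.obj (tp X (m + 2))} (hx : Mon R X (m + 2) x) :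
    Mon R X (m + 2) (x ≫ Sg R X m) := by
  cases hx with
  | one => rw [Category.id_comp]; exact Mon.sg X m
  | box _ a b ha hb =>
    have h := Mon.swp m a (𝟙 _) b ha (Mon.one _) hb
    rwa [bx_one, Category.comp_id] at h
  | swp _ a a' b ha ha' hb =>
    cases ha' with
    | one =>
      rw [bx_one, Category.comp_id, Category.assoc, Sg_Sg, Category.comp_id]
      exact Mon.box _ _ _ ha hb
    | box _ h c hh hc =>
      have e1 : (bx R a b ≫ Sg R X m ≫ bx R (bx R h c) (𝟙 _)) ≫ Sg R X m =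
          bx R (a ≫ bx R h (𝟙 _)) (b ≫ c) := by
        rw [Category.assoc, Category.assoc, Sg_nat R h2 _ hc (Pb.one R X),
          ← Category.assoc (Sg R X m), Sg_Sg, Category.id_comp, bx_comp]
      rw [e1]
      exact Mon.box _ _ _ (IH _ _ ha (Mon.box _ _ _ hh (Pb.one R X))) (hb.comp hc)
    | swp m' h h' c hh hh' hc =>
      have e1 : (bx R a b ≫ Sg R X (m' + 1) ≫ bx R (bx R h c ≫ Sg R X m' ≫ bx R h' (𝟙 _)) (𝟙 _)) ≫
          Sg R X (m' + 1) = bx R (a ≫ bx R h (𝟙 _) ≫ Sg R X m') (b ≫ c) ≫ Sg R X (m' + 1) ≫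
          bx R (Sg R X m' ≫ bx R h' (𝟙 _)) (𝟙 _) := by
        have f1 : bx R (bx R h c ≫ Sg R X m' ≫ bx R h' (𝟙 _)) (𝟙 (R.H.obj X)) =
            bx R (bx R h c) (𝟙 _) ≫ bx R (Sg R X m') (𝟙 _) ≫ bx R (bx R h' (𝟙 _)) (𝟙 _) := by
          rw [bx_comp, bx_comp, Category.comp_id, Category.comp_id]
        have f2 : Sg R X (m' + 1) ≫ bx R (bx R h c) (𝟙 _) =
            bx R (bx R h (𝟙 _)) c ≫ Sg R X (m' + 1) := (Sg_nat R h2 _ (Pb.one R X) hc).symm
        have f3 : bx R (bx R h' (𝟙 _)) (𝟙 _) ≫ Sg R X (m' + 1) =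
            Sg R X (m' + 1) ≫ bx R (bx R h' (𝟙 _)) (𝟙 _) :=
          Sg_nat R h2 _ (Pb.one R X) (Pb.one R X)
        have f4 := Sg_braid R X m'
        have f5 : bx R (a ≫ bx R h (𝟙 _) ≫ Sg R X m') (b ≫ c) =
            bx R a b ≫ bx R (bx R h (𝟙 _)) c ≫ bx R (Sg R X m') (𝟙 _) := by
          rw [bx_comp, bx_comp, Category.comp_id]
        have f6 : bx R (Sg R X m' ≫ bx R h' (𝟙 _)) (𝟙 (R.H.obj X)) =
            bx R (Sg R X m') (𝟙 _) ≫ bx R (bx R h' (𝟙 _)) (𝟙 _) := by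
          rw [bx_comp, Category.comp_id]
        rw [f1, f5, f6]
        simp only [Category.assoc]
        rw [f3, reassoc_of% f2, reassoc_of% f4]
      rw [e1]
      exact Mon.swp _ _ _ _ (IH _ _ ha (IH _ _ (Mon.box _ _ _ hh (Pb.one R X)) (Mon.sg X m')))
        (IH _ _ (Mon.sg X m') (Mon.box _ _ _ hh' (Pb.one R X))) (hb.comp hc)

/-- Products of monomials are monomials. -/
lemma Mon.comp (h2 : (2 : K) ≠ 0) {X : C} (n : ℕ) :
    ∀ x y, Mon R X n x → Mon R X n y → Mon R X n (x ≫ y) := by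
  induction n with
  | zero =>
    intro x y hx hy
    cases hx
    rwa [Category.id_comp]
  | succ n IH =>
    intro x y hx hy
    cases hy with
    | one => rwa [Category.comp_id]
    | box _ c d hc hd => exact Mon.compBox h2 IH hx hc hd
    | swp m c c' d hc hc' hd =>
      rw [← Category.assoc, ← Category.assoc]
      exact Mon.compBox h2 IH (Mon.compSg h2 IH (Mon.compBox h2 IH hx hc hd)) hc' (Pb.one R X)

/-- Exchanges are monomials. -/
lemma Mon.swap {X : C} {n : ℕ} {s : tp X n ⟶ tp X n} (hs : IsSwap X n s) :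
    Mon R X n (R.H.map s) := by
  induction hs with
  | last n => exact Mon.sg X n
  | lift n s hs ih =>
    rw [map_whiskerRight_eq]
    exact Mon.box _ _ _ ih (Pb.one R X)

lemma Mon.par {X : C} (n : ℕ) : Mon R X n (R.par (tp X n)) := by
  induction n with
  | zero =>
    have h : R.par (tp X 0) = 𝟙 _ := R.par_unit
    rw [h]
    exact Mon.one 0
  | succ n ih =>
    rw [← bx_par]
    exact Mon.box _ _ _ ih (Pb.par R X)

end

end Pool.Agent.Y112.SC
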