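import Pool.Agent.Y112.SC.Rat

/-!
# Sums over the factors and weight projectors
-/

set_option autoImplicit false
set_option linter.unusedSectionVars false
set_option linter.unusedSimpArgs false
set_option backward.isDefEq.respectTransparency false
set_option backward.defeqAttrib.useBackward true

open CategoryTheory Limits MonoidalCategory
open Pool.Agent.Y112.SR Pool.Agent.Y112.KD

namespace Pool.Agent.Y112.SC

universe v u w

open Functor.LaxMonoidal Functor.OplaxMonoidal

lemma swap_sq {C : Type u} [Category.{v} C] [MonoidalCategory C] [SymmetricCategory C] {X : C}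
    {n : ℕ} {s : tp X n ⟶ tp X n} (hs : IsSwap X n s) : s ≫ s = 𝟙 _ := by
  induction hs with
  | last n => exact sw_sw _ _
  | lift n s hs ih => rw [← comp_whiskerRight, ih, id_whiskerRight]

section

variable {C : Type u} [Category.{v} C] [Preadditive C] [MonoidalCategory C] [SymmetricCategory C]
  {K : Type w} [Field K] (R : SuperRealisation C K)

/-- The number of even factors minus the number of odd factors. -/
noncomputable def NN (X : C) : ∀ n : ℕ, R.H.obj (tp X n) ⟶ R.H.obj (tp X n)
  | 0 => 0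
  | n + 1 => bx R (NN X n) (𝟙 _) + bx R (𝟙 _) (R.par X)

/-- The projector onto the part with `k` odd factors. -/
noncomputable def EE (X : C) : ∀ (n : ℕ) (_ : ℤ), R.H.obj (tp X n) ⟶ R.H.obj (tp X n)
  | 0, k => if k = 0 then 𝟙 _ else 0
  | n + 1, k => bx R (EE X n k) (pe R X) + bx R (EE X n (k - 1)) (po R X)

lemma EE_zero (X : C) (k : ℤ) : EE R X 0 k = if k = 0 then 𝟙 _ else 0 := rfl

lemma EE_succ (X : C) (n : ℕ) (k : ℤ) : EE R X (n + 1) k =
    bx R (EE R X n k) (pe R X) + bx R (EE R X n (k - 1)) (po R X) := rfl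

lemma bx_zero_right {Q X : C} (a : R.H.obj Q ⟶ R.H.obj Q) :
    bx R a (0 : R.H.obj X ⟶ R.H.obj X) = 0 := by
  have := bx_smul_right R (0 : K) a (0 : R.H.obj X ⟶ R.H.obj X)
  simpa using this

lemma EE_idem (h2 : (2 : K) ≠ 0) (X : C) (n : ℕ) (k : ℤ) :
    EE R X n k ≫ EE R X n k = EE R X n k := by
  induction n generalizing k with
  | zero =>
    rw [EE_zero]
    split_ifs <;> simp
  | succ n ih =>
    rw [EE_succ, Preadditive.comp_add, Preadditive.add_comp, Preadditive.add_comp, bx_comp,
      bx_comp, bx_comp, bx_comp, ih, ih, pe_pe R h2, po_po R h2, pe_po, po_pe, bx_zero_right,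
      bx_zero_right, add_zero, zero_add]

lemma EE_neg (X : C) (n : ℕ) (k : ℤ) (hk : k < 0) : EE R X n k = 0 := by
  induction n generalizing k with
  | zero => rw [EE_zero, if_neg (by omega)]
  | succ n ih =>
    rw [EE_succ, ih k hk, ih (k - 1) (by omega), bx_zero_left, bx_zero_left, add_zero]

lemma EE_gt (X : C) (n : ℕ) (k : ℤ) (hk : (n : ℤ) < k) : EE R X n k = 0 := by
  induction n generalizing k with
  | zero =>
    rw [EE_zero, if_neg]
    simp at hk
    omega
  | succ n ih =>
    push_cast at hk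
    rw [EE_succ, ih k (by omega), ih (k - 1) (by omega), bx_zero_left, bx_zero_left, add_zero]

lemma EE_sum (X : C) (n : ℕ) (f : ℕ → K) :
    ∑ k ∈ Finset.range (n + 2), f k • EE R X (n + 1) (k : ℤ) =
      ∑ k ∈ Finset.range (n + 1), bx R (EE R X n (k : ℤ)) (f k • pe R X + f (k + 1) • po R X) := by
  simp only [EE_succ, smul_add, Finset.sum_add_distrib]
  have h1 : ∑ k ∈ Finset.range (n + 2), f k • bx R (EE R X n (k : ℤ)) (pe R X) =
      ∑ k ∈ Finset.range (n + 1), f k • bx R (EE R X n (k : ℤ)) (pe R X) := by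
    rw [Finset.sum_range_succ, EE_gt R X n ((n + 1 : ℕ) : ℤ) (by push_cast; omega), bx_zero_left,
      smul_zero, add_zero]
  have h2 : ∑ k ∈ Finset.range (n + 2), f k • bx R (EE R X n ((k : ℤ) - 1)) (po R X) =
      ∑ k ∈ Finset.range (n + 1), f (k + 1) • bx R (EE R X n (k : ℤ)) (po R X) := by
    rw [Finset.sum_range_succ', EE_neg R X n (((0 : ℕ) : ℤ) - 1) (by simp), bx_zero_left,
      smul_zero, add_zero]
    refine Finset.sum_congr rfl fun k _ => ?_
    have : (((k + 1 : ℕ) : ℤ) - 1) = k := by push_cast; ring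
    rw [this]
  rw [h1, h2, ← Finset.sum_add_distrib]
  refine Finset.sum_congr rfl fun k _ => ?_
  rw [bx_add_right, bx_smul_right, bx_smul_right]

lemma bx_sum_left {Q X : C} {ι : Type*} (s : Finset ι) (a : ι → (R.H.obj Q ⟶ R.H.obj Q))
    (b : R.H.obj X ⟶ R.H.obj X) : ∑ i ∈ s, bx R (a i) b = bx R (∑ i ∈ s, a i) b := by
  classical
  induction s using Finset.induction_on with
  | empty => rw [Finset.sum_empty, Finset.sum_empty, bx_zero_left]
  | insert i s hi ih => rw [Finset.sum_insert hi, Finset.sum_insert hi, bx_add_left, ih]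

lemma EE_one (h2 : (2 : K) ≠ 0) (X : C) (n : ℕ) :
    ∑ k ∈ Finset.range (n + 1), EE R X n (k : ℤ) = 𝟙 _ := by
  induction n with
  | zero => simp [EE_zero]
  | succ n ih =>
    have h1 := EE_sum R X n (fun _ => (1 : K))
    simp only [one_smul, pe_add_po R h2] at h1
    rw [h1, bx_sum_left, ih, bx_one]

lemma NN_eq (h2 : (2 : K) ≠ 0) (X : C) (n : ℕ) :
    NN R X n = ∑ k ∈ Finset.range (n + 1), ((n : K) - 2 * k) • EE R X n (k : ℤ) := by
  induction n with
  | zero => simp [NN]
  | succ n ih =>
    have h1 := EE_sum R X n (fun k => ((n + 1 : ℕ) : K) - 2 * k)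
    rw [h1]
    have h3 : ∀ k : ℕ, (((n + 1 : ℕ) : K) - 2 * k) • pe R X +
        (((n + 1 : ℕ) : K) - 2 * ((k + 1 : ℕ) : K)) • po R X =
        ((n : K) - 2 * k) • 𝟙 _ + R.par X := by
      intro k
      rw [← pe_add_po R h2 X, ← pe_sub_po R h2 X]
      push_cast
      module
    simp only [h3, bx_add_right, bx_smul_right, Finset.sum_add_distrib]
    rw [bx_sum_left, EE_one R h2, NN]
    congr 1
    rw [ih, ← bx_sum_left]
    refine Finset.sum_congr rfl fun k _ => ?_
    rw [bx_smul_left]

/-- The weight projectors commute with the exchanges. -/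
lemma EE_swap (h2 : (2 : K) ≠ 0) {X : C} {n : ℕ} {s : tp X n ⟶ tp X n} (hs : IsSwap X n s)
    (k : ℤ) : R.H.map s ≫ EE R X n k = EE R X n k ≫ R.H.map s := by
  induction hs generalizing k with
  | last n =>
    simp only [EE_succ, bx_add_left, Preadditive.comp_add, Preadditive.add_comp]
    rw [bx_sw R h2 _ _ _ (pe_comm R X) (pe_comm R X), bx_sw R h2 _ _ _ (po_comm R X) (pe_comm R X),
      bx_sw R h2 _ _ _ (pe_comm R X) (po_comm R X), bx_sw R h2 _ _ _ (po_comm R X) (po_comm R X)]
    abel
  | lift n s hs ih =>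
    rw [map_whiskerRight_eq, EE_succ, Preadditive.comp_add, Preadditive.add_comp, bx_comp,
      bx_comp, bx_comp, bx_comp, ih, ih]
    simp only [Category.comp_id, Category.id_comp]

end

section

variable {C : Type u} [Category.{v} C] [Preadditive C] [Linear ℚ C] [MonoidalCategory C]
  [MonoidalPreadditive C] [MonoidalLinear ℚ C] [SymmetricCategory C]
  [RightRigidCategory C] {K : Type w} [Field K] (R : SuperRealisation C K)

/-- The operators which are the involution on one factor, up to exchanges. -/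
inductive Reach (X : C) : ∀ n : ℕ, (R.H.obj (tp X n) ⟶ R.H.obj (tp X n)) → Prop
  | first (n : ℕ) : Reach X (n + 1) (up R X (R.par (tp X 1)) n)
  | conj (n : ℕ) (a : R.H.obj (tp X n) ⟶ R.H.obj (tp X n)) (s : tp X n ⟶ tp X n) :
      IsSwap X n s → Reach X n a → Reach X n (R.H.map s ≫ a ≫ R.H.map s)

variable {R}

lemma Reach.lift {X : C} {n : ℕ} {a : R.H.obj (tp X n) ⟶ R.H.obj (tp X n)} (h : Reach R X n a) :
    Reach R X (n + 1) (bx R a (𝟙 _)) := by
  induction h with
  | first n => exact Reach.first (n + 1)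
  | conj n a s hs _ ih =>
    have h1 := Reach.conj _ _ _ (IsSwap.lift n s hs) ih
    rwa [map_whiskerRight_eq, bx_comp, bx_comp, Category.comp_id, Category.comp_id] at h1

lemma Reach.last {X : C} (n : ℕ) : Reach R X (n + 1) (bx R (𝟙 _) (R.par X)) := by
  have hK := R_charZero R
  induction n with
  | zero =>
    have h1 := Reach.first (R := R) (X := X) 0
    have h2 : up R X (R.par (tp X 1)) 0 = bx R (𝟙 _) (R.par X) := by
      have h : R.par (tp X 0) = 𝟙 _ := R.par_unit
      rw [← h, bx_par]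
      rfl
    rwa [h2] at h1
  | succ n ih =>
    have h1 := Reach.conj _ _ _ (IsSwap.last n) ih.lift
    have h2 : R.H.map (sw (tp X n) X) ≫ bx R (bx R (𝟙 _) (R.par X)) (𝟙 _) ≫
        R.H.map (sw (tp X n) X) = bx R (𝟙 _) (R.par X) := by
      have h3 := Sg_nat R (X := X) (n := n) two_ne_zero (𝟙 _) (Pb.par R X) (Pb.one R X)
      have h4 := Sg_Sg R X n
      rw [Sg] at h3 h4
      rw [h3, ← Category.assoc, h4, Category.id_comp, bx_one]
    rwa [h2] at h1

lemma NN_val {X : C} (n : ℕ) (φ : (R.H.obj (tp X n) ⟶ R.H.obj (tp X n)) →+ K) (c : K)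
    (h : ∀ a, Reach R X n a → φ a = c) : φ (NN R X n) = n * c := by
  induction n with
  | zero =>
    have : NN R X 0 = 0 := rfl
    rw [this]
    simp
  | succ n ih =>
    let ψ : (R.H.obj (tp X n) ⟶ R.H.obj (tp X n)) →+ K :=
      { toFun := fun a => φ (bx R a (𝟙 _))
        map_zero' := by rw [bx_zero_left, map_zero]
        map_add' := fun a b => by rw [bx_add_left, map_add] }
    have h1 := ih ψ (fun a ha => h _ ha.lift)
    have h2 : φ (NN R X (n + 1)) = ψ (NN R X n) + φ (bx R (𝟙 _) (R.par X)) := map_add φ _ _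
    rw [h2, h1, h _ (Reach.last n)]
    push_cast
    ring

end

end Pool.Agent.Y112.SC
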