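import Pool.Agent.Y112.SC.Mon

/-!
# Rational combinations of monomials and iterated partial traces
-/

set_option autoImplicit false
set_option linter.unusedSectionVars false
set_option linter.unusedSimpArgs false
set_option backward.isDefEq.respectTransparency false
set_option backward.defeqAttrib.useBackward true

open CategoryTheory Limits MonoidalCategory
open Pool.Agent.Y112.SR Pool.Agent.Y112.KD

namespace Pool.Agent.Y112.SC

universe v u w

open Functor.LaxMonoidal Functor.OplaxMonoidal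

section

variable {C : Type u} [Category.{v} C] [Preadditive C] [MonoidalCategory C] [SymmetricCategory C]
  {K : Type w} [Field K] (R : SuperRealisation C K)

/-- Rational linear combinations of monomials. -/
inductive RC (X : C) (n : ℕ) : (R.H.obj (tp X n) ⟶ R.H.obj (tp X n)) → Prop
  | mon (x : R.H.obj (tp X n) ⟶ R.H.obj (tp X n)) : Mon R X n x → RC X n x
  | add (x y : R.H.obj (tp X n) ⟶ R.H.obj (tp X n)) : RC X n x → RC X n y → RC X n (x + y)
  | smul (q : ℚ) (x : R.H.obj (tp X n) ⟶ R.H.obj (tp X n)) : RC X n x → RC X n ((q : K) • x)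

variable {R}

lemma RC.comp (h2 : (2 : K) ≠ 0) {X : C} {n : ℕ} {x y : R.H.obj (tp X n) ⟶ R.H.obj (tp X n)}
    (hx : RC R X n x) (hy : RC R X n y) : RC R X n (x ≫ y) := by
  induction hx with
  | mon x hx =>
    induction hy with
    | mon y hy => exact RC.mon _ (Mon.comp h2 n x y hx hy)
    | add y z _ _ h1 h2 => rw [Preadditive.comp_add]; exact RC.add _ _ h1 h2
    | smul q y _ h1 => rw [Linear.comp_smul]; exact RC.smul _ _ h1
  | add y z _ _ h1 h2 => rw [Preadditive.add_comp]; exact RC.add _ _ h1 h2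
  | smul q y _ h1 => rw [Linear.smul_comp]; exact RC.smul _ _ h1

/-- The shape of the rational combinations on one factor. -/
lemma RC.one_shape (hK : CharZero K) {X : C} {x : R.H.obj (tp X 1) ⟶ R.H.obj (tp X 1)}
    (hx : RC R X 1 x) : ∃ α β : ℚ, x = (α : K) • 𝟙 _ + (β : K) • R.par (tp X 1) := by
  induction hx with
  | mon x hx =>
    cases hx with
    | one => exact ⟨1, 0, by simp⟩
    | box _ a b ha hb =>
      cases ha
      rcases hb with rfl | rfl
      · exact ⟨1, 0, by rw [bx_one]; simp⟩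
      · refine ⟨0, 1, ?_⟩
        have h : R.par (tp X 0) = 𝟙 _ := R.par_unit
        rw [← h, bx_par]
        simp
  | add y z _ _ h1 h2 =>
    obtain ⟨a, b, rfl⟩ := h1
    obtain ⟨a', b', rfl⟩ := h2
    refine ⟨a + a', b + b', ?_⟩
    push_cast
    module
  | smul q y _ h1 =>
    obtain ⟨a, b, rfl⟩ := h1
    refine ⟨q * a, q * b, ?_⟩
    push_cast
    module

variable (R)

/-- The projector onto the even part. -/
noncomputable def pe (X : C) : R.H.obj X ⟶ R.H.obj X := (2 : K)⁻¹ • (𝟙 _ + R.par X)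

/-- The projector onto the odd part. -/
noncomputable def po (X : C) : R.H.obj X ⟶ R.H.obj X := (2 : K)⁻¹ • (𝟙 _ - R.par X)

lemma pe_add_po (h2 : (2 : K) ≠ 0) (X : C) : pe R X + po R X = 𝟙 _ := by
  rw [pe, po, ← smul_add]
  have h3 : (𝟙 _ + R.par X + (𝟙 _ - R.par X) : R.H.obj X ⟶ R.H.obj X) = (2 : K) • 𝟙 _ := by
    module
  rw [h3, smul_smul, inv_mul_cancel₀ h2, one_smul]

lemma pe_sub_po (h2 : (2 : K) ≠ 0) (X : C) : pe R X - po R X = R.par X := by
  rw [pe, po, ← smul_sub]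
  have h3 : (𝟙 _ + R.par X - (𝟙 _ - R.par X) : R.H.obj X ⟶ R.H.obj X) = (2 : K) • R.par X := by
    module
  rw [h3, smul_smul, inv_mul_cancel₀ h2, one_smul]

lemma pe_po (X : C) : pe R X ≫ po R X = 0 := by
  rw [pe, po, Linear.smul_comp, Linear.comp_smul, Preadditive.add_comp, Preadditive.comp_sub,
    Preadditive.comp_sub, Category.id_comp, Category.comp_id, Category.id_comp, R.par_sq]
  have h3 : (𝟙 _ - R.par X + (R.par X - 𝟙 _) : R.H.obj X ⟶ R.H.obj X) = 0 := by abel
  rw [h3, smul_zero, smul_zero]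

lemma po_pe (X : C) : po R X ≫ pe R X = 0 := by
  rw [pe, po, Linear.smul_comp, Linear.comp_smul, Preadditive.sub_comp, Preadditive.comp_add,
    Preadditive.comp_add, Category.id_comp, Category.comp_id, Category.id_comp, R.par_sq]
  have h3 : (𝟙 _ + R.par X - (R.par X + 𝟙 _) : R.H.obj X ⟶ R.H.obj X) = 0 := by abel
  rw [h3, smul_zero, smul_zero]

lemma pe_pe (h2 : (2 : K) ≠ 0) (X : C) : pe R X ≫ pe R X = pe R X := by
  have h1 : pe R X ≫ (pe R X + po R X) = pe R X := by rw [pe_add_po R h2, Category.comp_id]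
  rwa [Preadditive.comp_add, pe_po, add_zero] at h1

lemma po_po (h2 : (2 : K) ≠ 0) (X : C) : po R X ≫ po R X = po R X := by
  have h1 : po R X ≫ (pe R X + po R X) = po R X := by rw [pe_add_po R h2, Category.comp_id]
  rwa [Preadditive.comp_add, po_pe, zero_add] at h1

lemma pe_comm (X : C) : pe R X ≫ R.par X = R.par X ≫ pe R X := by
  simp only [pe, Linear.smul_comp, Linear.comp_smul, Preadditive.add_comp, Preadditive.comp_add,
    Category.id_comp, Category.comp_id]

lemma po_comm (X : C) : po R X ≫ R.par X = R.par X ≫ po R X := by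
  simp only [po, Linear.smul_comp, Linear.comp_smul, Preadditive.sub_comp, Preadditive.comp_sub,
    Category.id_comp, Category.comp_id]

/-- The trace of an idempotent. -/
lemma exists_rk {X : C} (e : R.H.obj X ⟶ R.H.obj X) (he : e ≫ e = e) (hK : CharZero K) :
    ∃ p : ℕ, LinearMap.trace K (R.H.obj X) e.hom = p ∧ (p = 0 → e = 0) := by
  have h0 := R.finite X
  have he' : IsIdempotentElem e.hom := congrArg ModuleCat.Hom.hom he
  have h2 := (LinearMap.IsIdempotentElem.isProj_range _ he').trace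
  refine ⟨_, h2, fun h => ?_⟩
  apply ModuleCat.hom_ext
  refine (LinearMap.IsIdempotentElem.trace_eq_zero_iff he').mp ?_
  rw [h2, h, Nat.cast_zero]

/-- The dimensions of the even and the odd part. -/
lemma exists_pq (hK : CharZero K) (X : C) : ∃ p q : ℕ,
    LinearMap.trace K (R.H.obj X) (𝟙 (R.H.obj X) : R.H.obj X ⟶ R.H.obj X).hom = p + q ∧
    LinearMap.trace K (R.H.obj X) (R.par X).hom = p - q ∧
    (p = 0 → R.par X = -𝟙 _) ∧ (q = 0 → R.par X = 𝟙 _) := by
  have h2 : (2 : K) ≠ 0 := two_ne_zero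
  obtain ⟨p, hp, hp'⟩ := exists_rk R _ (pe_pe R h2 X) hK
  obtain ⟨q, hq, hq'⟩ := exists_rk R _ (po_po R h2 X) hK
  refine ⟨p, q, ?_, ?_, fun h => ?_, fun h => ?_⟩
  · rw [← hp, ← hq, ← map_add, ← ModuleCat.hom_add, pe_add_po R h2]
  · rw [← hp, ← hq, ← map_sub, ← ModuleCat.hom_sub, pe_sub_po R h2]
  · rw [← pe_sub_po R h2, ← pe_add_po R h2 X, hp' h]
    abel
  · rw [← pe_sub_po R h2, ← pe_add_po R h2 X, hq' h]
    abel

end

section

variable {C : Type u} [Category.{v} C] [Preadditive C] [Linear ℚ C] [MonoidalCategory C]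
  [MonoidalPreadditive C] [MonoidalLinear ℚ C] [SymmetricCategory C]
  [RightRigidCategory C] {K : Type w} [Field K] {R : SuperRealisation C K}

/-- The partial trace of a rational combination of monomials. -/
lemma RC.PT {X : C} {n : ℕ} {x : R.H.obj (tp X (n + 1)) ⟶ R.H.obj (tp X (n + 1))}
    (hx : RC R X (n + 1) x) : RC R X n (PT R x) := by
  have hK := R_charZero R
  have h2 : (2 : K) ≠ 0 := two_ne_zero
  have hb : ∀ b : R.H.obj X ⟶ R.H.obj X, Pb R b →
      ∃ t : ℚ, LinearMap.trace K (R.H.obj X) (b ≫ R.par X).hom = (t : K) := by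
    obtain ⟨p, q, h1, h1', -, -⟩ := exists_pq R hK X
    rintro b (rfl | rfl)
    · refine ⟨(p : ℚ) - q, ?_⟩
      rw [Category.id_comp, h1']
      push_cast
      rfl
    · refine ⟨(p : ℚ) + q, ?_⟩
      rw [R.par_sq, h1]
      push_cast
      rfl
  have hbox : ∀ (a : R.H.obj (tp X n) ⟶ R.H.obj (tp X n)) (b : R.H.obj X ⟶ R.H.obj X),
      Mon R X n a → Pb R b → RC R X n (SC.PT R (bx R a b)) := by
    intro a b ha hb'
    obtain ⟨t, ht⟩ := hb b hb'
    rw [PT_bx R h2, ht]
    exact RC.smul _ _ (RC.mon _ ha)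
  induction hx with
  | mon x hx =>
    cases hx with
    | one =>
      have h := hbox (𝟙 _) (𝟙 _) (Mon.one n) (Pb.one R X)
      rwa [bx_one] at h
    | box _ a b ha hb' => exact hbox a b ha hb'
    | swp m a a' b ha ha' hb' =>
      have e1 : bx R a b ≫ Sg R X m ≫ bx R a' (𝟙 _) =
          bx R a (𝟙 _) ≫ Sg R X m ≫ bx R (bx R (𝟙 _) b ≫ a') (𝟙 _) := by
        have e2 : bx R a b = bx R a (𝟙 _) ≫ bx R (𝟙 _) b := by
          rw [bx_comp, Category.comp_id, Category.id_comp]
        have e3 : bx R (𝟙 _) b ≫ Sg R X m = Sg R X m ≫ bx R (bx R (𝟙 _) b) (𝟙 _) := by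
          rw [← Sg_nat R h2 _ (Pb.one R X) hb', bx_one]
        have e4 : bx R (bx R (𝟙 _) b ≫ a') (𝟙 (R.H.obj X)) =
            bx R (bx R (𝟙 _) b) (𝟙 _) ≫ bx R a' (𝟙 _) := by
          rw [bx_comp, Category.comp_id]
        rw [e2, e4, Category.assoc, reassoc_of% e3]
      have e5 : SC.PT R (bx R a b ≫ Sg R X m ≫ bx R a' (𝟙 _)) = a ≫ bx R (𝟙 _) b ≫ a' := by
        rw [e1, PT_comp]
        have e6 : SC.PT R (Sg R X m) = 𝟙 _ := PT_sw R _ _
        rw [e6, Category.id_comp]
      rw [e5]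
      exact RC.mon _ (Mon.comp h2 _ _ _ ha (Mon.comp h2 _ _ _
        (Mon.box _ _ _ (Mon.one _) hb') ha'))
  | add y z _ _ h1 h2 => rw [PT_add]; exact RC.add _ _ h1 h2
  | smul q y _ h1 => rw [PT_smul]; exact RC.smul _ _ h1

variable (R)

/-- The iterated partial trace. -/
noncomputable def PTn (X : C) : ∀ n : ℕ, (R.H.obj (tp X (n + 1)) ⟶ R.H.obj (tp X (n + 1))) →
    (R.H.obj (tp X 1) ⟶ R.H.obj (tp X 1))
  | 0, x => x
  | n + 1, x => PTn X n (PT R x)

lemma RC.PTn {X : C} (n : ℕ) {x : R.H.obj (tp X (n + 1)) ⟶ R.H.obj (tp X (n + 1))}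
    (hx : RC R X (n + 1) x) : RC R X 1 (PTn R X n x) := by
  induction n with
  | zero => exact hx
  | succ n ih => exact ih hx.PT

lemma PTn_map {X : C} (n : ℕ) (y : tp X (n + 1) ⟶ tp X (n + 1)) :
    ∃ z : tp X 1 ⟶ tp X 1, PTn R X n (R.H.map y) = R.H.map z := by
  induction n with
  | zero => exact ⟨y, rfl⟩
  | succ n ih =>
    obtain ⟨z, hz⟩ := ih (ptr y)
    refine ⟨z, ?_⟩
    rw [← hz]
    change PTn R X n (PT R (R.H.map y)) = _
    rw [PT_map]

/-- An operator on the first factor. -/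
noncomputable def up (X : C) (a : R.H.obj (tp X 1) ⟶ R.H.obj (tp X 1)) :
    ∀ n : ℕ, R.H.obj (tp X (n + 1)) ⟶ R.H.obj (tp X (n + 1))
  | 0 => a
  | n + 1 => bx R (up X a n) (𝟙 _)

/-- The trace of the iterated partial trace. -/
lemma trace_PTn {X : C} (n : ℕ) (a : R.H.obj (tp X 1) ⟶ R.H.obj (tp X 1))
    (x : R.H.obj (tp X (n + 1)) ⟶ R.H.obj (tp X (n + 1))) :
    LinearMap.trace K (R.H.obj (tp X 1)) (a ≫ PTn R X n x ≫ R.par (tp X 1)).hom =
      LinearMap.trace K (R.H.obj (tp X (n + 1)))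
        (up R X a n ≫ x ≫ R.par (tp X (n + 1))).hom := by
  induction n with
  | zero => rfl
  | succ n ih =>
    have h1 := ih (PT R x)
    refine h1.trans ?_
    exact trace_PT R _ _

end

end Pool.Agent.Y112.SC
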